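import Pool.Agent.H487R3.Cau.Stmts

set_option autoImplicit false

open MeasureTheory Filter Set Topology

namespace Pool.Agent.H419R3.Cau

open Pool.Agent.H487R3.Cau

/-- second difference quotient -/
noncomputable def D2 (z0 z1 z2 : ℂ) : ℂ :=
  (Phi z1 - Phi z0) / (z1 - z0) - (Phi z2 - Phi z1) / (z2 - z1)

lemma hasDerivAt_Lg {z : ℂ} (hz : -Complex.I * z ∈ Complex.slitPlane) :
    HasDerivAt Lg z⁻¹ z := by
  have hz0 : z ≠ 0 := by
    rintro rfl
    simp at hz
  have h1 : HasDerivAt (fun w : ℂ => -Complex.I * w) (-Complex.I) z := by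
    simpa using (hasDerivAt_id z).const_mul (-Complex.I)
  have h2 := h1.clog hz
  have e : -Complex.I / (-Complex.I * z) = z⁻¹ := by
    rw [div_mul_eq_div_div, div_self (neg_ne_zero.2 Complex.I_ne_zero), one_div]
  rw [e] at h2
  exact h2

lemma hasDerivAt_Phi {z : ℂ} (hz : -Complex.I * z ∈ Complex.slitPlane) :
    HasDerivAt Phi (Lg z + 1) z := by
  have hz0 : z ≠ 0 := by
    rintro rfl
    simp at hz
  have h := (hasDerivAt_id z).mul (hasDerivAt_Lg hz)
  have e : 1 * Lg z + id z * z⁻¹ = Lg z + 1 := by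
    rw [id, mul_inv_cancel₀ hz0, one_mul]
  rw [e] at h
  exact h

lemma quot_bound {U : Set ℂ} (hU : Convex ℝ U) {Kp : ℝ}
    (hs : ∀ z ∈ U, -Complex.I * z ∈ Complex.slitPlane) (hK : ∀ z ∈ U, ‖z⁻¹‖ ≤ Kp)
    {z1 w : ℂ} (h1 : z1 ∈ U) (hw : w ∈ U) (hne : w ≠ z1) :
    ‖(Phi w - Phi z1) / (w - z1) - (Lg z1 + 1)‖ ≤ Kp * ‖w - z1‖ := by
  have hLg : ∀ z ∈ U, ‖Lg z - Lg z1‖ ≤ Kp * ‖z - z1‖ := by
    intro z hz
    exact hU.norm_image_sub_le_of_norm_hasDerivWithin_le
      (fun x hx => (hasDerivAt_Lg (hs x hx)).hasDerivWithinAt) hK h1 hz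
  have hseg : segment ℝ z1 w ⊆ U := hU.segment_subset h1 hw
  have hK0 : 0 ≤ Kp := (norm_nonneg _).trans (hK z1 h1)
  have hmain : ‖(Phi w - (Lg z1 + 1) * w) - (Phi z1 - (Lg z1 + 1) * z1)‖ ≤
      (Kp * ‖w - z1‖) * ‖w - z1‖ := by
    refine (convex_segment z1 w).norm_image_sub_le_of_norm_hasDerivWithin_le
      (f := fun z => Phi z - (Lg z1 + 1) * z) (f' := fun z => (Lg z + 1) - (Lg z1 + 1)) ?_ ?_
      (left_mem_segment ℝ z1 w) (right_mem_segment ℝ z1 w)
    · intro x hx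
      have h2 : HasDerivAt (fun z : ℂ => (Lg z1 + 1) * z) (Lg z1 + 1) x := by
        simpa using (hasDerivAt_id x).const_mul (Lg z1 + 1)
      exact ((hasDerivAt_Phi (hs x (hseg hx))).sub h2).hasDerivWithinAt
    · intro x hx
      have h3 : (Lg x + 1) - (Lg z1 + 1) = Lg x - Lg z1 := by ring
      rw [h3]
      refine (hLg x (hseg hx)).trans ?_
      apply mul_le_mul_of_nonneg_left _ hK0
      have := norm_sub_le_of_mem_segment hx
      exact this
  have hne' : w - z1 ≠ 0 := sub_ne_zero.2 hne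
  have e : (Phi w - Phi z1) / (w - z1) - (Lg z1 + 1) =
      ((Phi w - (Lg z1 + 1) * w) - (Phi z1 - (Lg z1 + 1) * z1)) / (w - z1) := by
    field_simp
    ring
  rw [e, norm_div, div_le_iff₀ (norm_pos_iff.2 hne')]
  exact hmain

lemma D2_le {U : Set ℂ} (hU : Convex ℝ U) {Kp h : ℝ}
    (hs : ∀ z ∈ U, -Complex.I * z ∈ Complex.slitPlane) (hK : ∀ z ∈ U, ‖z⁻¹‖ ≤ Kp)
    {z0 z1 z2 : ℂ} (h0 : z0 ∈ U) (h1 : z1 ∈ U) (h2 : z2 ∈ U) (hh : 0 < h)
    (l0 : 9 / 10 * h ≤ ‖z1 - z0‖) (u0 : ‖z1 - z0‖ ≤ 11 / 10 * h)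
    (l1 : 9 / 10 * h ≤ ‖z2 - z1‖) (u1 : ‖z2 - z1‖ ≤ 11 / 10 * h) :
    ‖D2 z0 z1 z2‖ ≤ 22 / 10 * h * Kp := by
  have hK0 : 0 ≤ Kp := (norm_nonneg _).trans (hK z1 h1)
  have ne0 : z0 ≠ z1 := by
    rintro rfl
    simp at l0
    linarith
  have ne2 : z2 ≠ z1 := by
    rintro rfl
    simp at l1
    linarith
  have b0 := quot_bound hU hs hK h1 h0 ne0
  have b2 := quot_bound hU hs hK h1 h2 ne2
  have e : D2 z0 z1 z2 = ((Phi z0 - Phi z1) / (z0 - z1) - (Lg z1 + 1)) -
      ((Phi z2 - Phi z1) / (z2 - z1) - (Lg z1 + 1)) := by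
    unfold D2
    have : (Phi z1 - Phi z0) / (z1 - z0) = (Phi z0 - Phi z1) / (z0 - z1) := by
      rw [← neg_div_neg_eq, neg_sub, neg_sub]
    rw [this]
    ring
  rw [e]
  refine (norm_sub_le _ _).trans ?_
  rw [norm_sub_rev z0 z1] at b0
  have c0 : Kp * ‖z1 - z0‖ ≤ Kp * (11 / 10 * h) := mul_le_mul_of_nonneg_left u0 hK0
  have c2 : Kp * ‖z2 - z1‖ ≤ Kp * (11 / 10 * h) := mul_le_mul_of_nonneg_left u1 hK0
  nlinarith

lemma Phi_scale {z : ℂ} {M : ℝ} (hM : 0 < M) (hz : ‖z‖ ≤ M) :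
    ‖Phi z - z * (Real.log M : ℂ)‖ ≤ 5 * M := by
  unfold Phi Lg
  rcases eq_or_ne z 0 with rfl | hz0
  · simp
    positivity
  have e : z * Complex.log (-Complex.I * z) - z * (Real.log M : ℂ) =
      z * (Complex.log (-Complex.I * z) - (Real.log M : ℂ)) := by ring
  rw [e, norm_mul]
  have hzn : 0 < ‖z‖ := norm_pos_iff.2 hz0
  have hn : ‖-Complex.I * z‖ = ‖z‖ := by simp
  have h1 : ‖Complex.log (-Complex.I * z) - (Real.log M : ℂ)‖ ≤ (Real.log M - Real.log ‖z‖) + Real.pi := by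
    refine (Complex.norm_le_abs_re_add_abs_im _).trans ?_
    have hre : (Complex.log (-Complex.I * z) - (Real.log M : ℂ)).re = Real.log ‖z‖ - Real.log M := by
      rw [Complex.sub_re, Complex.log_re, hn, Complex.ofReal_re]
    have him : (Complex.log (-Complex.I * z) - (Real.log M : ℂ)).im =
        Complex.arg (-Complex.I * z) := by
      rw [Complex.sub_im, Complex.log_im, Complex.ofReal_im, sub_zero]
    rw [hre, him]
    have hlog : Real.log ‖z‖ ≤ Real.log M := Real.log_le_log hzn hz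
    rw [abs_sub_comm, abs_of_nonneg (by linarith)]
    have := Complex.abs_arg_le_pi (-Complex.I * z)
    linarith
  have h2 : ‖z‖ * (Real.log M - Real.log ‖z‖) ≤ M := by
    rw [← Real.log_div hM.ne' hzn.ne']
    have := Real.log_le_sub_one_of_pos (div_pos hM hzn)
    calc ‖z‖ * Real.log (M / ‖z‖) ≤ ‖z‖ * (M / ‖z‖ - 1) :=
          mul_le_mul_of_nonneg_left this hzn.le
      _ = M - ‖z‖ := by field_simp
      _ ≤ M := by linarith
  have hpi : Real.pi ≤ 4 := Real.pi_le_four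
  calc ‖z‖ * ‖Complex.log (-Complex.I * z) - (Real.log M : ℂ)‖
      ≤ ‖z‖ * ((Real.log M - Real.log ‖z‖) + Real.pi) := mul_le_mul_of_nonneg_left h1 hzn.le
    _ = ‖z‖ * (Real.log M - Real.log ‖z‖) + ‖z‖ * Real.pi := by ring
    _ ≤ M + M * 4 := add_le_add h2 (mul_le_mul hz hpi Real.pi_pos.le hM.le)
    _ = 5 * M := by ring

lemma D2_bdd {z0 z1 z2 : ℂ} {h : ℝ} (hh : 0 < h)
    (l0 : 9 / 10 * h ≤ ‖z1 - z0‖) (u0 : ‖z1 - z0‖ ≤ 11 / 10 * h)
    (l1 : 9 / 10 * h ≤ ‖z2 - z1‖) (u1 : ‖z2 - z1‖ ≤ 11 / 10 * h)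
    (hsec : -|z1.re| ≤ z1.im) :
    ‖D2 z0 z1 z2‖ ≤ 120 := by
  rcases le_or_gt (3 * h) ‖z1‖ with hbig | hsmall
  · have hin : ∀ z ∈ Metric.closedBall z1 (11 / 10 * h), ‖z1 - z‖ ≤ 11 / 10 * h := by
      intro z hz
      rw [Metric.mem_closedBall, dist_comm, dist_eq_norm] at hz
      exact hz
    have := D2_le (U := Metric.closedBall z1 (11 / 10 * h)) (Kp := (19 / 10 * h)⁻¹) (h := h)
      (convex_closedBall _ _) (z0 := z0) (z1 := z1) (z2 := z2) ?_ ?_ ?_ ?_ ?_ hh l0 u0 l1 u1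
    · refine this.trans ?_
      have : 22 / 10 * h * (19 / 10 * h)⁻¹ = 22 / 19 := by
        field_simp
      rw [this]
      norm_num
    · intro z hz
      have hz' := hin z hz
      rw [Complex.mem_slitPlane_iff]
      by_contra hcon
      push Not at hcon
      obtain ⟨c1, c2⟩ := hcon
      have e1 : (-Complex.I * z).re = z.im := by simp
      have e2 : (-Complex.I * z).im = -z.re := by simp
      rw [e1] at c1
      rw [e2, neg_eq_zero] at c2
      have hre : |z1.re| ≤ 11 / 10 * h := by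
        have := (Complex.abs_re_le_norm (z1 - z)).trans hz'
        rwa [Complex.sub_re, c2, sub_zero] at this
      have him : |z1.im - z.im| ≤ 11 / 10 * h := by
        have := (Complex.abs_im_le_norm (z1 - z)).trans hz'
        rwa [Complex.sub_im] at this
      have him2 : |z1.im| ≤ 11 / 10 * h := by
        rw [abs_le] at him ⊢
        constructor
        · linarith
        · linarith [him.2]
      have := Complex.norm_le_abs_re_add_abs_im z1
      linarith
    · intro z hz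
      have hz' := hin z hz
      rw [norm_inv]
      apply inv_anti₀ (by positivity)
      have : ‖z1‖ ≤ ‖z1 - z‖ + ‖z‖ := by
        simpa using norm_add_le (z1 - z) z
      linarith
    · rw [Metric.mem_closedBall, dist_comm, dist_eq_norm]
      exact u0
    · exact Metric.mem_closedBall_self (by positivity)
    · rw [Metric.mem_closedBall, dist_eq_norm]
      exact u1
  · have n0 : ‖z0‖ ≤ 5 * h := by
      have : ‖z0‖ ≤ ‖z1 - z0‖ + ‖z1‖ := by
        rw [norm_sub_rev]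
        simpa using norm_add_le (z0 - z1) z1
      linarith
    have n2 : ‖z2‖ ≤ 5 * h := by
      have : ‖z2‖ ≤ ‖z2 - z1‖ + ‖z1‖ := by
        simpa using norm_add_le (z2 - z1) z1
      linarith
    have n1 : ‖z1‖ ≤ 5 * h := by linarith
    have hM : 0 < 5 * h := by positivity
    have p0 := Phi_scale hM n0
    have p1 := Phi_scale hM n1
    have p2 := Phi_scale hM n2
    set c : ℂ := (Real.log (5 * h) : ℂ) with hc
    have ne0 : z1 - z0 ≠ 0 := by
      intro h0
      rw [h0] at l0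
      simp at l0
      linarith
    have ne2 : z2 - z1 ≠ 0 := by
      intro h0
      rw [h0] at l1
      simp at l1
      linarith
    have e : D2 z0 z1 z2 = ((Phi z1 - z1 * c) - (Phi z0 - z0 * c)) / (z1 - z0) -
        ((Phi z2 - z2 * c) - (Phi z1 - z1 * c)) / (z2 - z1) := by
      unfold D2
      field_simp
      ring
    rw [e]
    refine (norm_sub_le _ _).trans ?_
    rw [norm_div, norm_div]
    have q0 : ‖(Phi z1 - z1 * c) - (Phi z0 - z0 * c)‖ / ‖z1 - z0‖ ≤ 60 := by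
      rw [div_le_iff₀ (by linarith [l0, (by positivity : 0 < 9 / 10 * h)])]
      refine (norm_sub_le _ _).trans ?_
      nlinarith
    have q1 : ‖(Phi z2 - z2 * c) - (Phi z1 - z1 * c)‖ / ‖z2 - z1‖ ≤ 60 := by
      rw [div_le_iff₀ (by linarith [l1, (by positivity : 0 < 9 / 10 * h)])]
      refine (norm_sub_le _ _).trans ?_
      nlinarith
    linarith

lemma G_diff {a : ℝ → ℂ} (ha : LipschitzWith (1 / 10) a) (x y : ℝ) :
    ‖(G a x - G a y) - ((x - y : ℝ) : ℂ)‖ ≤ |x - y| / 10 := by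
  have h := ha.dist_le_mul x y
  rw [dist_eq_norm, Real.dist_eq] at h
  have e : (G a x - G a y) - ((x - y : ℝ) : ℂ) = a x - a y := by
    unfold G
    push_cast
    ring
  rw [e]
  refine h.trans (le_of_eq ?_)
  push_cast
  ring

lemma G_norm {a : ℝ → ℂ} (ha : LipschitzWith (1 / 10) a) {x y h : ℝ} (hh : 0 < h)
    (hxy : x - y = h) : 9 / 10 * h ≤ ‖G a x - G a y‖ ∧ ‖G a x - G a y‖ ≤ 11 / 10 * h := by
  have h1 := G_diff ha x y
  rw [hxy, abs_of_pos hh] at h1
  have hn : ‖((h : ℝ) : ℂ)‖ = h := by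
    rw [Complex.norm_real, Real.norm_of_nonneg hh.le]
  constructor
  · have : ‖((h : ℝ) : ℂ)‖ ≤ ‖(G a x - G a y) - ((h : ℝ) : ℂ)‖ + ‖G a x - G a y‖ := by
      rw [norm_sub_rev (G a x - G a y)]
      simpa using norm_add_le (((h : ℝ) : ℂ) - (G a x - G a y)) (G a x - G a y)
    linarith
  · have : ‖G a x - G a y‖ ≤ ‖(G a x - G a y) - ((h : ℝ) : ℂ)‖ + ‖((h : ℝ) : ℂ)‖ := by
      simpa using norm_add_le ((G a x - G a y) - ((h : ℝ) : ℂ)) ((h : ℝ) : ℂ)
    linarith

/-- real and imaginary part of `G x - G y + iδ` -/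
lemma re_im {a : ℝ → ℂ} (ha : LipschitzWith (1 / 10) a) {δ : ℝ} (x y : ℝ) :
    |(G a x - G a y + δ * Complex.I).re - (x - y)| ≤ |x - y| / 10 ∧
    |(G a x - G a y + δ * Complex.I).im - δ| ≤ |x - y| / 10 := by
  have h1 := G_diff ha x y
  constructor
  · refine le_trans ?_ ((Complex.abs_re_le_norm _).trans h1)
    apply le_of_eq
    congr 1
    simp
  · refine le_trans ?_ ((Complex.abs_im_le_norm _).trans h1)
    apply le_of_eq
    congr 1
    simp

lemma sector {a : ℝ → ℂ} (ha : LipschitzWith (1 / 10) a) {δ : ℝ} (hδ : 0 < δ) (x y : ℝ) :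
    -|(G a x - G a y + δ * Complex.I).re| ≤ (G a x - G a y + δ * Complex.I).im := by
  obtain ⟨h1, h2⟩ := re_im ha (δ := δ) x y
  set z := G a x - G a y + δ * Complex.I
  have h3 : |x - y| ≤ |z.re| + |z.re - (x - y)| := by
    have := abs_sub_abs_le_abs_sub (x - y) z.re
    rw [abs_sub_comm (x - y) z.re] at this
    linarith
  rw [abs_le] at h2
  have h4 : 0 ≤ |x - y| := abs_nonneg _
  linarith [h2.1]

lemma W_left (a : ℝ → ℂ) (δ e l h : ℝ) :
    W a (fun w => P a δ w e) l h = -D2 (G a e - G a l + δ * Complex.I)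
      (G a e - G a (l + h) + δ * Complex.I) (G a e - G a (l + 2 * h) + δ * Complex.I) := by
  unfold W D2 P
  have e1 : (G a e - G a (l + h) + δ * Complex.I) - (G a e - G a l + δ * Complex.I) =
      -(G a (l + h) - G a l) := by ring
  have e2 : (G a e - G a (l + 2 * h) + δ * Complex.I) - (G a e - G a (l + h) + δ * Complex.I) =
      -(G a (l + 2 * h) - G a (l + h)) := by ring
  rw [e1, e2, div_neg, div_neg]
  ring

lemma W_right (a : ℝ → ℂ) (δ e l h : ℝ) :
    W a (fun w => P a δ e w) l h = D2 (G a l - G a e + δ * Complex.I)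
      (G a (l + h) - G a e + δ * Complex.I) (G a (l + 2 * h) - G a e + δ * Complex.I) := by
  unfold W D2 P
  have e1 : (G a (l + h) - G a e + δ * Complex.I) - (G a l - G a e + δ * Complex.I) =
      (G a (l + h) - G a l) := by ring
  have e2 : (G a (l + 2 * h) - G a e + δ * Complex.I) - (G a (l + h) - G a e + δ * Complex.I) =
      (G a (l + 2 * h) - G a (l + h)) := by ring
  rw [e1, e2]

/-- bound of `D2` in a half plane -/
lemma D2_half {z0 z1 z2 : ℂ} {h D s : ℝ} (hh : 0 < h) (hD : 0 < D) (hs : s = 1 ∨ s = -1)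
    (l0 : 9 / 10 * h ≤ ‖z1 - z0‖) (u0 : ‖z1 - z0‖ ≤ 11 / 10 * h)
    (l1 : 9 / 10 * h ≤ ‖z2 - z1‖) (u1 : ‖z2 - z1‖ ≤ 11 / 10 * h)
    (r0 : 9 / 10 * D ≤ s * z0.re) (r1 : 9 / 10 * D ≤ s * z1.re) (r2 : 9 / 10 * D ≤ s * z2.re) :
    ‖D2 z0 z1 z2‖ ≤ 120 * (h / D) := by
  have hconv : Convex ℝ {z : ℂ | 9 / 10 * D ≤ s * z.re} := by
    intro x hx y hy p q hp hq hpq
    simp only [Set.mem_ofPred_eq] at hx hy ⊢
    have e : s * (p • x + q • y).re = p * (s * x.re) + q * (s * y.re) := by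
      simp
      ring
    rw [e]
    calc 9 / 10 * D = p * (9 / 10 * D) + q * (9 / 10 * D) := by rw [← add_mul, hpq, one_mul]
      _ ≤ _ := add_le_add (mul_le_mul_of_nonneg_left hx hp) (mul_le_mul_of_nonneg_left hy hq)
  have habs : ∀ z : ℂ, s * z.re ≤ |z.re| := by
    intro z
    rcases hs with rfl | rfl
    · simpa using le_abs_self z.re
    · simpa using neg_le_abs z.re
  have := D2_le (U := {z : ℂ | 9 / 10 * D ≤ s * z.re}) (Kp := (9 / 10 * D)⁻¹) (h := h)
      hconv (z0 := z0) (z1 := z1) (z2 := z2) ?_ ?_ r0 r1 r2 hh l0 u0 l1 u1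
  · refine this.trans ?_
    rw [mul_inv]
    have : 22 / 10 * h * ((9 / 10)⁻¹ * D⁻¹) = 22 / 9 * (h / D) := by
      rw [div_eq_mul_inv h D]
      ring
    rw [this]
    have : 0 < h / D := div_pos hh hD
    linarith
  · intro z hz
    simp only [Set.mem_ofPred_eq] at hz
    rw [Complex.mem_slitPlane_iff]
    right
    have e2 : (-Complex.I * z).im = -z.re := by simp
    rw [e2]
    intro h0
    rw [neg_eq_zero] at h0
    rw [h0] at hz
    simp at hz
    linarith
  · intro z hz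
    simp only [Set.mem_ofPred_eq] at hz
    rw [norm_inv]
    apply inv_anti₀ (by positivity)
    exact hz.trans ((habs z).trans (Complex.abs_re_le_norm z))

theorem near : TaskNear := by
  refine ⟨120, by norm_num, ?_⟩
  intro a ha δ hδ _ e l h hh
  have g0 := G_norm ha hh (x := l + h) (y := l) (by ring)
  have g1 := G_norm ha hh (x := l + 2 * h) (y := l + h) (by ring)
  -- the differences
  have dl0 : ‖(G a e - G a (l + h) + δ * Complex.I) - (G a e - G a l + δ * Complex.I)‖ =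
      ‖G a (l + h) - G a l‖ := by
    rw [← norm_neg]
    congr 1
    ring
  have dl1 : ‖(G a e - G a (l + 2 * h) + δ * Complex.I) - (G a e - G a (l + h) + δ * Complex.I)‖ =
      ‖G a (l + 2 * h) - G a (l + h)‖ := by
    rw [← norm_neg]
    congr 1
    ring
  have dr0 : ‖(G a (l + h) - G a e + δ * Complex.I) - (G a l - G a e + δ * Complex.I)‖ =
      ‖G a (l + h) - G a l‖ := by
    congr 1
    ring
  have dr1 : ‖(G a (l + 2 * h) - G a e + δ * Complex.I) - (G a (l + h) - G a e + δ * Complex.I)‖ =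
      ‖G a (l + 2 * h) - G a (l + h)‖ := by
    congr 1
    ring
  refine ⟨?_, ?_, ?_⟩
  · rw [W_left, norm_neg]
    exact D2_bdd hh (dl0 ▸ g0.1) (dl0 ▸ g0.2) (dl1 ▸ g1.1) (dl1 ▸ g1.2) (sector ha hδ _ _)
  · rw [W_right]
    exact D2_bdd hh (dr0 ▸ g0.1) (dr0 ▸ g0.2) (dr1 ▸ g1.1) (dr1 ▸ g1.2) (sector ha hδ _ _)
  · intro D hD hdist
    have hmem0 : l ∈ Icc l (l + 2 * h) := ⟨le_rfl, by linarith⟩
    have hmem1 : l + h ∈ Icc l (l + 2 * h) := ⟨by linarith, by linarith⟩
    have hmem2 : l + 2 * h ∈ Icc l (l + 2 * h) := ⟨by linarith, le_rfl⟩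
    have hnot : e < l ∨ l + 2 * h < e := by
      by_contra hcon
      push Not at hcon
      have := hdist e ⟨hcon.1, hcon.2⟩
      simp at this
      linarith
    have key : ∀ w ∈ Icc l (l + 2 * h), ∃ s : ℝ, (s = 1 ∨ s = -1) ∧ (s = 1 ↔ e < l) ∧
        9 / 10 * D ≤ s * (G a w - G a e + δ * Complex.I).re ∧
        9 / 10 * D ≤ -s * (G a e - G a w + δ * Complex.I).re := by
      intro w hw
      have hd := hdist w hw
      obtain ⟨r1, -⟩ := re_im ha (δ := δ) w e
      obtain ⟨r2, -⟩ := re_im ha (δ := δ) e w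
      rw [abs_sub_comm e w] at r2
      rcases hnot with hlt | hgt
      · refine ⟨1, Or.inl rfl, by simp [hlt], ?_, ?_⟩
        · have hpos : 0 ≤ w - e := by linarith [hw.1]
          rw [abs_of_nonneg hpos] at hd r1
          rw [abs_le] at r1
          linarith [r1.1]
        · have hpos : 0 ≤ w - e := by linarith [hw.1]
          rw [abs_of_nonneg hpos] at hd r2
          rw [abs_le] at r2
          linarith [r2.2]
      · have hne : ¬ e < l := by linarith
        refine ⟨-1, Or.inr rfl, ?_, ?_, ?_⟩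
        · constructor
          · intro h0
            norm_num at h0
          · intro h0
            exact absurd h0 hne
        · have hneg : w - e ≤ 0 := by linarith [hw.2]
          rw [abs_of_nonpos hneg] at hd r1
          rw [abs_le] at r1
          linarith [r1.2]
        · have hneg : w - e ≤ 0 := by linarith [hw.2]
          rw [abs_of_nonpos hneg] at hd r2
          rw [abs_le] at r2
          linarith [r2.1]
    obtain ⟨s0, hs0, hs0', a0, b0⟩ := key l hmem0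
    obtain ⟨s1, hs1, hs1', a1, b1⟩ := key (l + h) hmem1
    obtain ⟨s2, hs2, hs2', a2, b2⟩ := key (l + 2 * h) hmem2
    have hse : ∀ s t : ℝ, (s = 1 ∨ s = -1) → (s = 1 ↔ e < l) → (t = 1 ∨ t = -1) →
        (t = 1 ↔ e < l) → s = t := by
      intro s t h1 h2 h3 h4
      rcases h1 with rfl | rfl
      · have : t = 1 := h4.2 (h2.1 rfl)
        rw [this]
      · rcases h3 with rfl | rfl
        · have := h2.2 (h4.1 rfl)
          exact this
        · rfl
    have e1 : s1 = s0 := hse _ _ hs1 hs1' hs0 hs0'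
    have e2 : s2 = s0 := hse _ _ hs2 hs2' hs0 hs0'
    subst e1
    subst e2
    have hsn : -s2 = 1 ∨ -s2 = -1 := by
      rcases hs2 with h | h
      · right
        rw [h]
      · left
        rw [h, neg_neg]
    constructor
    · rw [W_left, norm_neg]
      exact D2_half hh hD hsn (dl0 ▸ g0.1) (dl0 ▸ g0.2) (dl1 ▸ g1.1) (dl1 ▸ g1.2) b0 b1 b2
    · rw [W_right]
      exact D2_half hh hD hs2 (dr0 ▸ g0.1) (dr0 ▸ g0.2) (dr1 ▸ g1.1) (dr1 ▸ g1.2) a0 a1 a2

end Pool.Agent.H419R3.Cau
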